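import Mathlib

/-!
# Periodicity of generalized pseudostandard words over an arbitrary alphabet

We prove the characterization of periodic generalized pseudostandard words in terms of a normalized
directive bi-sequence, for every finite alphabet.

Every involutory antimorphism is `w ↦ reverse (map s w)` for an involution `s` of the alphabet. Write
`L n` for the length of `w_n` and `s n` for the involution belonging to `ϑ_n`.

* If `u` is periodic, let `q` be the least positive shift for which `u (x + q) = π (u x)` for a map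
  `π` of the letters. Since the bi-sequence is normalized, `L (n + 1) = L n + q` for all large `n`,
  and then `s (n + 1) ∘ s n = π`; conditions 1 and 2 follow.
* Conversely, condition 2 says that `s (n + 1) ∘ s n = π` is constant; normalization bounds
  `L (n + 1) - L n` from below by `L n - L (n - 1)` and condition 1 bounds it from above by the same
  number, which gives `u (x + q) = π (u x)` for all `x`, and `π` has finite order.
-/

set_option autoImplicit false

namespace Pool.Agent.Results.MP_757726_co.PeriodicityCriterion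

/-- An involutory antimorphism of the free monoid on `A`. -/
structure InvAnti (A : Type) where
  /-- the underlying map on words -/
  toFun : List A → List A
  /-- it reverses concatenation -/
  map_append : ∀ v w : List A, toFun (v ++ w) = toFun w ++ toFun v
  /-- it is an involution -/
  invol : ∀ w : List A, toFun (toFun w) = w

/-- `w` is a `ϑ`-palindrome. -/
def IsPal {A : Type} (ϑ : InvAnti A) (w : List A) : Prop := ϑ.toFun w = w

/-- `c` is a shortest `ϑ`-palindrome having `w` as a prefix. -/
def IsClosure {A : Type} (ϑ : InvAnti A) (w c : List A) : Prop :=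
  IsPal ϑ c ∧ w <+: c ∧ ∀ c' : List A, IsPal ϑ c' → w <+: c' → c.length ≤ c'.length

theorem exists_closure {A : Type} (ϑ : InvAnti A) (w : List A) : ∃ c, IsClosure ϑ w c := by
  classical
  have hex : ∃ n : ℕ, ∃ c : List A, IsPal ϑ c ∧ w <+: c ∧ c.length = n :=
    ⟨_, w ++ ϑ.toFun w, by
      unfold IsPal
      rw [ϑ.map_append, ϑ.invol], List.prefix_append _ _, rfl⟩
  obtain ⟨c, hc1, hc2, hc3⟩ := Nat.find_spec hex
  refine ⟨c, hc1, hc2, ?_⟩
  intro c' h1 h2
  rw [hc3]
  exact Nat.find_min' hex ⟨c', h1, h2, rfl⟩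

/-- The `ϑ`-palindromic closure of `w`: the shortest `ϑ`-palindrome with prefix `w`. -/
noncomputable def palClosure {A : Type} (ϑ : InvAnti A) (w : List A) : List A :=
  (exists_closure ϑ w).choose

/-- The words `w_n` of the directive bi-sequence `(Δ, Θ)`, with `Δ = δ_1 δ_2 ⋯`, `Θ = ϑ_1 ϑ_2 ⋯`
(the values of `Δ` and `Θ` at `0` are not used). -/
noncomputable def words {A : Type} (Δ : ℕ → A) (Θ : ℕ → InvAnti A) : ℕ → List A
  | 0 => []
  | n + 1 => palClosure (Θ (n + 1)) (words Δ Θ n ++ [Δ (n + 1)])

/-- The prefix of length `L` of the infinite word `u`. -/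
def pref {A : Type} (u : ℕ → A) (L : ℕ) : List A := (List.range L).map u

/-- The infinite word `u` is the generalized pseudostandard word generated by `(Δ, Θ)`: every `w_n`
is a prefix of `u`. -/
def Generates {A : Type} (Δ : ℕ → A) (Θ : ℕ → InvAnti A) (u : ℕ → A) : Prop :=
  ∀ n, words Δ Θ n = pref u (words Δ Θ n).length

/-- The bi-sequence `(Δ, Θ)` generating `u` is normalized: every prefix of `u` which is a
`ϑ`-palindrome for some involutory antimorphism `ϑ` is one of the `w_n`. -/
def Normalized {A : Type} (Δ : ℕ → A) (Θ : ℕ → InvAnti A) (u : ℕ → A) : Prop :=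
  ∀ (L : ℕ) (ϑ : InvAnti A), IsPal ϑ (pref u L) → ∃ n, words Δ Θ n = pref u L

/-- `u = w v^ω` for some finite words `w`, `v` with `v` nonempty. -/
def Periodic {A : Type} (u : ℕ → A) : Prop :=
  ∃ N p : ℕ, 0 < p ∧ ∀ i, N ≤ i → u (i + p) = u i

/-- Condition 1 for the tails `δ_1 δ_2 ⋯ = Δ (m+1) Δ (m+2) ⋯`, `ϑ_1 ϑ_2 ⋯ = Θ (m+1) Θ (m+2) ⋯`. -/
def Cond1 {A : Type} (Δ : ℕ → A) (Θ : ℕ → InvAnti A) (m : ℕ) : Prop :=
  ∀ i j : ℕ, 1 ≤ i → 1 ≤ j →
    (Θ (m + i)).toFun [Δ (m + (i + 1))] = (Θ (m + j)).toFun [Δ (m + (j + 1))]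

/-- Condition 2 for the tail `ϑ_1 ϑ_2 ⋯ = Θ (m+1) Θ (m+2) ⋯`. -/
def Cond2 {A : Type} (Θ : ℕ → InvAnti A) (m : ℕ) : Prop :=
  ∀ i : ℕ, 1 ≤ i → ∀ w : List A, IsPal (Θ (m + i)) w →
    IsPal (Θ (m + (i + 2))) ((Θ (m + (i + 1))).toFun w)

/-! ### Involutory antimorphisms and involutions of the alphabet -/

namespace InvAnti

variable {A : Type}

lemma map_nil (ϑ : InvAnti A) : ϑ.toFun [] = [] := by
  have h := ϑ.map_append [] []
  have h2 := congrArg List.length h
  simp only [List.append_nil, List.length_append] at h2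
  exact List.length_eq_zero_iff.mp (by omega)

lemma length_ge (ϑ : InvAnti A) (w : List A) : w.length ≤ (ϑ.toFun w).length := by
  induction w with
  | nil => simp
  | cons a w ih =>
    have h : ϑ.toFun (a :: w) = ϑ.toFun w ++ ϑ.toFun [a] := ϑ.map_append [a] w
    rw [h, List.length_append, List.length_cons]
    have : 0 < (ϑ.toFun [a]).length := by
      rw [List.length_pos_iff]
      intro h0
      have := ϑ.invol [a]
      rw [h0, ϑ.map_nil] at this
      simp at this
    omega

lemma length_eq (ϑ : InvAnti A) (w : List A) : (ϑ.toFun w).length = w.length := by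
  have h1 := ϑ.length_ge w
  have h2 := ϑ.length_ge (ϑ.toFun w)
  rw [ϑ.invol] at h2
  omega

lemma exists_letter (ϑ : InvAnti A) (a : A) : ∃ b, ϑ.toFun [a] = [b] := by
  have := ϑ.length_eq [a]
  rw [List.length_singleton] at this
  exact List.length_eq_one_iff.mp this

/-- The action on letters. -/
noncomputable def letter (ϑ : InvAnti A) (a : A) : A := (ϑ.exists_letter a).choose

lemma apply_singleton (ϑ : InvAnti A) (a : A) : ϑ.toFun [a] = [ϑ.letter a] :=
  (ϑ.exists_letter a).choose_spec

lemma letter_letter (ϑ : InvAnti A) (a : A) : ϑ.letter (ϑ.letter a) = a := by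
  have := ϑ.invol [a]
  rw [apply_singleton, apply_singleton] at this
  simpa using this

lemma apply_eq (ϑ : InvAnti A) (w : List A) : ϑ.toFun w = (w.map ϑ.letter).reverse := by
  induction w with
  | nil => simp [ϑ.map_nil]
  | cons a w ih =>
    have h : ϑ.toFun (a :: w) = ϑ.toFun w ++ ϑ.toFun [a] := ϑ.map_append [a] w
    rw [h, ih, apply_singleton]
    simp

/-- The involutory antimorphism belonging to an involution of the alphabet. -/
def ofLetter (s : A → A) (hs : ∀ a, s (s a) = a) : InvAnti A where
  toFun w := (w.map s).reverse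
  map_append v w := by simp
  invol w := by
    have : s ∘ s = id := funext hs
    simp [this]

lemma letter_ofLetter (s : A → A) (hs : ∀ a, s (s a) = a) (a : A) :
    (ofLetter s hs).letter a = s a := by
  have h1 := (ofLetter s hs).apply_singleton a
  have h2 : (ofLetter s hs).toFun [a] = [s a] := by simp [ofLetter]
  rw [h2] at h1
  simpa using h1.symm

end InvAnti

variable {A : Type}

lemma pref_length (u : ℕ → A) (L : ℕ) : (pref u L).length = L := by simp [pref]

lemma pref_getElem (u : ℕ → A) (L i : ℕ) (h : i < (pref u L).length) : (pref u L)[i] = u i := by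
  simp [pref]

lemma isPal_iff (ϑ : InvAnti A) (w : List A) :
    IsPal ϑ w ↔ ∀ x (h : x < w.length), w[w.length - 1 - x] = ϑ.letter (w[x]) := by
  unfold IsPal
  rw [ϑ.apply_eq]
  constructor
  · intro h x hx
    have h1 : ((w.map ϑ.letter).reverse)[w.length - 1 - x]'(by
      rw [List.length_reverse, List.length_map]; omega) = w[w.length - 1 - x] := by
      simp only [h]
    rw [← h1, List.getElem_reverse, List.getElem_map]
    congr 1
    simp only [List.length_map]
    congr 1
    omega
  · intro h
    apply List.ext_getElem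
    · simp
    · intro i h1 h2
      rw [List.getElem_reverse, List.getElem_map]
      simp only [List.length_map]
      have h3 := h (w.length - 1 - i) (by omega)
      rw [← h3]
      congr 1
      omega

lemma isPal_pref_iff (ϑ : InvAnti A) (u : ℕ → A) (L : ℕ) :
    IsPal ϑ (pref u L) ↔ ∀ x, x < L → u (L - 1 - x) = ϑ.letter (u x) := by
  rw [isPal_iff]
  constructor
  · intro h x hx
    have := h x (by rw [pref_length]; exact hx)
    simp only [pref_getElem, pref_length] at this
    exact this
  · intro h x hx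
    simp only [pref_getElem, pref_length]
    rw [pref_length] at hx
    exact h x hx

lemma pref_take (u : ℕ → A) {L L' : ℕ} (h : L ≤ L') : (pref u L').take L = pref u L := by
  unfold pref
  rw [← List.map_take, List.take_range, min_eq_left h]

lemma pref_succ (u : ℕ → A) (L : ℕ) : pref u (L + 1) = pref u L ++ [u L] := by
  simp [pref, List.range_succ]

/-- A palindromic prefix together with the involution. -/
def RefA (u : ℕ → A) (L : ℕ) (s : A → A) : Prop := ∀ x, x < L → u (L - 1 - x) = s (u x)

lemma words_succ_spec (Δ : ℕ → A) (Θ : ℕ → InvAnti A) (n : ℕ) :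
    IsClosure (Θ (n + 1)) (words Δ Θ n ++ [Δ (n + 1)]) (words Δ Θ (n + 1)) :=
  (exists_closure (Θ (n + 1)) (words Δ Θ n ++ [Δ (n + 1)])).choose_spec

section main

variable (Δ : ℕ → A) (Θ : ℕ → InvAnti A) (u : ℕ → A)

/-- lengths of the `w_n` -/
noncomputable def len (n : ℕ) : ℕ := (words Δ Θ n).length

lemma len_succ (n : ℕ) : len Δ Θ n + 1 ≤ len Δ Θ (n + 1) := by
  have h := (words_succ_spec Δ Θ n).2.1.length_le
  simpa [len] using h

lemma len_strictMono : StrictMono (len Δ Θ) := strictMono_nat_of_lt_succ (fun n => len_succ Δ Θ n)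

lemma le_len (n : ℕ) : n ≤ len Δ Θ n := (len_strictMono Δ Θ).le_apply

variable {Δ Θ u}

lemma refA_len (hg : Generates Δ Θ u) (n : ℕ) :
    RefA u (len Δ Θ (n + 1)) (Θ (n + 1)).letter := by
  have h := (words_succ_spec Δ Θ n).1
  rw [hg (n + 1)] at h
  exact (isPal_pref_iff _ _ _).mp h

lemma u_len (hg : Generates Δ Θ u) (n : ℕ) : u (len Δ Θ n) = Δ (n + 1) := by
  have h := (words_succ_spec Δ Θ n).2.1
  rw [hg (n + 1)] at h
  have h1 := List.prefix_iff_eq_take.mp h
  rw [List.length_append, List.length_singleton, pref_take u (by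
    have := len_succ Δ Θ n
    simpa [len] using this), pref_succ] at h1
  have h2 := congrArg List.getLast? h1
  simp only [List.getLast?_append, List.getLast?_singleton, Option.some_or,
    Option.some.injEq] at h2
  exact h2.symm

/-- If every pseudopalindromic prefix is a `w_n`, there is none strictly between two consecutive
lengths. -/
lemma no_between (hn : Normalized Δ Θ u) (L n : ℕ) (ϑ : InvAnti A) (hL : IsPal ϑ (pref u L))
    (h1 : len Δ Θ n < L) : len Δ Θ (n + 1) ≤ L := by
  obtain ⟨k, hk⟩ := hn L ϑ hL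
  have hk' : len Δ Θ k = L := by
    unfold len
    rw [hk, pref_length]
  rw [← hk'] at h1 ⊢
  exact (len_strictMono Δ Θ).monotone ((len_strictMono Δ Θ).lt_iff_lt.mp h1)

/-! ### Periodic words satisfy the conditions -/

lemma purely_periodic (hg : Generates Δ Θ u) (hp : Periodic u) :
    ∃ p, 0 < p ∧ ∀ i, u (i + p) = u i := by
  obtain ⟨N, p, hp0, hp⟩ := hp
  refine ⟨p, hp0, ?_⟩
  intro i
  have hr := refA_len hg (i + p + N)
  set L := len Δ Θ (i + p + N + 1) with hL
  have hLge : i + p + N + 1 ≤ L := le_len Δ Θ _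
  set s := (Θ (i + p + N + 1)).letter with hs
  have hinv : ∀ a, s (s a) = a := (Θ (i + p + N + 1)).letter_letter
  have h1 := hr i (by omega)
  have h2 := hr (i + p) (by omega)
  have h3 := hp (L - 1 - (i + p)) (by omega)
  have h4 : L - 1 - (i + p) + p = L - 1 - i := by omega
  rw [h4, h1, h2] at h3
  have := congrArg s h3
  rw [hinv, hinv] at this
  exact this.symm

lemma periodic_mul {p : ℕ} (hp : ∀ i, u (i + p) = u i) (x k : ℕ) : u (x + k * p) = u x := by
  induction k with
  | zero => simp
  | succ k ih =>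
    rw [Nat.succ_mul, ← Nat.add_assoc, hp, ih]

lemma periodic_mod {p : ℕ} (hp : ∀ i, u (i + p) = u i) (x : ℕ) : u (x % p) = u x := by
  have h := periodic_mul hp (x % p) (x / p)
  rw [← h]
  congr 1
  rw [Nat.mul_comm]
  exact Nat.mod_add_div x p

/-- Two reflections give a translation. -/
lemma translation {p : ℕ} (hp0 : 0 < p) (hp : ∀ i, u (i + p) = u i) {L L' : ℕ} {s s' : A → A}
    (h : RefA u L s) (h' : RefA u L' s') (hLL : L ≤ L') (hpL : p ≤ L) :
    ∀ x, u (x + (L' - L)) = s' (s (u x)) := by
  intro x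
  have hmod : x % p < p := Nat.mod_lt _ hp0
  have h1 := h (x % p) (by omega)
  have h2 := h' (L - 1 - x % p) (by omega)
  rw [h1, periodic_mod hp] at h2
  rw [← h2]
  have h3 := periodic_mul hp (x % p + (L' - L)) (x / p)
  have h4 : x % p + (L' - L) + x / p * p = x + (L' - L) := by
    have := Nat.mod_add_div x p
    rw [Nat.mul_comm] at this
    omega
  rw [h4] at h3
  rw [h3]
  congr 1
  omega

theorem conds_of_periodic (hg : Generates Δ Θ u) (hd : ∀ a, ∃ i, u i = a)
    (hn : Normalized Δ Θ u) (hper : Periodic u) : ∃ m, Cond1 Δ Θ m ∧ Cond2 Θ m := by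
  classical
  obtain ⟨p, hp0, hp⟩ := purely_periodic hg hper
  have hletters : ∀ a, ∃ x < p, u x = a := by
    intro a
    obtain ⟨i, hi⟩ := hd a
    exact ⟨i % p, Nat.mod_lt _ hp0, by rw [periodic_mod hp]; exact hi⟩
  -- minimal translation
  have hex : ∃ q, 0 < q ∧ ∃ π : A → A, ∀ x, u (x + q) = π (u x) := ⟨p, hp0, id, hp⟩
  obtain ⟨hq0, π, hπ⟩ := Nat.find_spec hex
  set q := Nat.find hex with hq
  have hmin : ∀ q', 0 < q' → (∃ π : A → A, ∀ x, u (x + q') = π (u x)) → q ≤ q' :=
    fun q' h1 h2 => Nat.find_min' hex ⟨h1, h2⟩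
  -- reflections shifted by q
  have hshift : ∀ L s, (∀ a, s (s a) = a) → RefA u L s → p ≤ L → ∃ ϑ : InvAnti A,
      IsPal ϑ (pref u (L + q)) := by
    intro L s _ hR hpL
    have hR' : RefA u (L + q) (fun a => π (s a)) := by
      intro x hx
      show u (L + q - 1 - x) = π (s (u x))
      have hmod : x % p < p := Nat.mod_lt _ hp0
      have h1 := hR (x % p) (by omega)
      have h2 := hπ (L - 1 - x % p)
      rw [h1, periodic_mod hp] at h2
      rw [← h2]
      have h3 := periodic_mul hp (L + q - 1 - x) (x / p)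
      have h4 : L + q - 1 - x + x / p * p = L - 1 - x % p + q := by
        have := Nat.mod_add_div x p
        rw [Nat.mul_comm] at this
        omega
      rw [← h3, h4]
    have hinv : ∀ a, π (s (π (s a))) = a := by
      intro a
      obtain ⟨x, hx, rfl⟩ := hletters a
      have h1 : u (L + q - 1 - x) = π (s (u x)) := hR' x (by omega)
      have h2 : u (L + q - 1 - (L + q - 1 - x)) = π (s (u (L + q - 1 - x))) :=
        hR' (L + q - 1 - x) (by omega)
      rw [h1] at h2
      rw [← h2]
      congr 1
      omega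
    refine ⟨InvAnti.ofLetter (fun a => π (s a)) hinv, ?_⟩
    rw [isPal_pref_iff]
    intro x hx
    rw [InvAnti.letter_ofLetter]
    exact hR' x hx
  -- consecutive lengths
  have hstep : ∀ n, p ≤ n → len Δ Θ (n + 1) = len Δ Θ n + q ∧
      ∀ a, (Θ (n + 1)).letter ((Θ n).letter a) = π a := by
    intro n hpn
    obtain ⟨k, rfl⟩ : ∃ k, n = k + 1 := ⟨n - 1, by omega⟩
    have hR := refA_len hg k
    have hR2 := refA_len hg (k + 1)
    have hle := le_len Δ Θ (k + 1)
    have hlt := len_succ Δ Θ (k + 1)
    have htr := translation hp0 hp hR hR2 (by omega) (by omega)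
    have h1 : q ≤ len Δ Θ (k + 1 + 1) - len Δ Θ (k + 1) :=
      hmin _ (by omega) ⟨fun a => (Θ (k + 1 + 1)).letter ((Θ (k + 1)).letter a), htr⟩
    obtain ⟨ϑ, hϑ⟩ := hshift _ _ (Θ (k + 1)).letter_letter hR (by omega)
    have h2 := no_between hn (len Δ Θ (k + 1) + q) (k + 1) ϑ hϑ (by omega)
    have h3 : len Δ Θ (k + 1 + 1) = len Δ Θ (k + 1) + q := by omega
    refine ⟨h3, ?_⟩
    intro a
    obtain ⟨x, _, rfl⟩ := hletters a
    rw [← htr x, ← hπ x]
    congr 1
    omega
  refine ⟨p, ?_, ?_⟩
  · -- condition 1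
    have hconst : ∀ i, 1 ≤ i → (Θ (p + (i + 1))).letter (Δ (p + (i + 1 + 1)))
        = (Θ (p + i)).letter (Δ (p + (i + 1))) := by
      intro i hi
      have h1 := (hstep (p + i) (by omega))
      have h2 := u_len hg (p + i)
      have h3 := u_len hg (p + i + 1)
      rw [h1.1, hπ, h2, ← h1.2] at h3
      have e1 : p + (i + 1 + 1) = p + i + 1 + 1 := by omega
      have e2 : p + (i + 1) = p + i + 1 := by omega
      rw [e1, e2, ← h3, InvAnti.letter_letter]
    have hall : ∀ i, 1 ≤ i → (Θ (p + i)).letter (Δ (p + (i + 1)))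
        = (Θ (p + 1)).letter (Δ (p + (1 + 1))) := by
      intro i hi
      induction i, hi using Nat.le_induction with
      | base => rfl
      | succ i hi ih => rw [hconst i hi, ih]
    intro i j hi hj
    rw [InvAnti.apply_singleton, InvAnti.apply_singleton, hall i hi, hall j hj]
  · -- condition 2
    intro i hi w hw
    have h1 := (hstep (p + i) (by omega)).2
    have h2 := (hstep (p + i + 1) (by omega)).2
    have e1 : p + (i + 2) = p + i + 1 + 1 := by omega
    have e2 : p + (i + 1) = p + i + 1 := by omega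
    rw [e1, e2]
    unfold IsPal at hw ⊢
    have h3 : (Θ (p + i + 1 + 1)).toFun ((Θ (p + i + 1)).toFun w)
        = (Θ (p + i + 1)).toFun ((Θ (p + i)).toFun w) := by
      rw [InvAnti.apply_eq, InvAnti.apply_eq, InvAnti.apply_eq (Θ (p + i + 1)),
        InvAnti.apply_eq (Θ (p + i))]
      simp only [List.map_reverse, List.reverse_reverse, List.map_map]
      refine List.map_congr_left ?_
      intro a _
      simp only [Function.comp]
      rw [h1, h2]
    rw [h3, hw]

/-! ### The conditions imply periodicity -/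

lemma comp_of_cond2 {m : ℕ} (h : Cond2 Θ m) (i : ℕ) (hi : 1 ≤ i) (a : A) :
    (Θ (m + i + 2)).letter ((Θ (m + i + 1)).letter a)
      = (Θ (m + i + 1)).letter ((Θ (m + i)).letter a) := by
  have h1 := h i hi [a, (Θ (m + i)).letter a] (by
    unfold IsPal
    rw [InvAnti.apply_eq]
    simp [InvAnti.letter_letter])
  have e1 : m + (i + 2) = m + i + 2 := by omega
  have e2 : m + (i + 1) = m + i + 1 := by omega
  rw [e1, e2] at h1
  unfold IsPal at h1
  rw [InvAnti.apply_eq, InvAnti.apply_eq] at h1
  simp at h1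
  exact h1.1

lemma cond1_letter {m : ℕ} (h : Cond1 Δ Θ m) (k : ℕ) (hk : m ≤ k) :
    (Θ (k + 1)).letter (Δ (k + 2)) = (Θ (k + 2)).letter (Δ (k + 3)) := by
  have h1 := h (k + 1 - m) (k + 2 - m) (by omega) (by omega)
  have e1 : m + (k + 1 - m) = k + 1 := by omega
  have e2 : m + (k + 1 - m + 1) = k + 2 := by omega
  have e3 : m + (k + 2 - m) = k + 2 := by omega
  have e4 : m + (k + 2 - m + 1) = k + 3 := by omega
  rw [e1, e2, e3, e4, InvAnti.apply_singleton, InvAnti.apply_singleton] at h1
  simpa using h1

lemma cond2_letter {m : ℕ} (h : Cond2 Θ m) (k : ℕ) (hk : m ≤ k) (a : A) :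
    (Θ (k + 3)).letter ((Θ (k + 2)).letter a) = (Θ (k + 2)).letter ((Θ (k + 1)).letter a) := by
  have h1 := comp_of_cond2 h (k + 1 - m) (by omega) a
  have e1 : m + (k + 1 - m) = k + 1 := by omega
  rw [e1] at h1
  exact h1

/-- The differences of the lengths are constant. -/
lemma len_diff (hg : Generates Δ Θ u) (hn : Normalized Δ Θ u) {m : ℕ} (hc1 : Cond1 Δ Θ m)
    (hc2 : Cond2 Θ m) (k : ℕ) (hk : m ≤ k) :
    len Δ Θ (k + 3) + len Δ Θ (k + 1) = 2 * len Δ Θ (k + 2) := by
  have hRa := refA_len hg k
  have hRb := refA_len hg (k + 1)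
  have hRc := refA_len hg (k + 2)
  have hab := len_succ Δ Θ (k + 1)
  have hbc := len_succ Δ Θ (k + 2)
  have hua := u_len hg (k + 1)
  have hub := u_len hg (k + 2)
  have hl1 := cond1_letter hc1 k hk
  have hl2 := cond2_letter hc2 k hk
  have hclos := words_succ_spec Δ Θ (k + 2)
  have hgb := hg (k + 2)
  simp only [show k + 1 + 1 = k + 2 from rfl, show k + 2 + 1 = k + 3 from rfl] at *
  change words Δ Θ (k + 2) = pref u (len Δ Θ (k + 2)) at hgb
  have hno := no_between hn (n := k + 1)
  have hinva := (Θ (k + 1)).letter_letter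
  have hinvb := (Θ (k + 2)).letter_letter
  have hinvc := (Θ (k + 3)).letter_letter
  have hclos3 : ∀ c' : List A, IsPal (Θ (k + 3)) c' → words Δ Θ (k + 2) ++ [Δ (k + 3)] <+: c' →
      len Δ Θ (k + 3) ≤ c'.length := hclos.2.2
  rw [hgb] at hclos3
  set La := len Δ Θ (k + 1)
  set Lb := len Δ Θ (k + 2)
  set Lc := len Δ Θ (k + 3)
  set sa := (Θ (k + 1)).letter
  set sb := (Θ (k + 2)).letter
  set sc := (Θ (k + 3)).letter with hsc
  -- lower bound
  have hlow : Lb - La ≤ Lc - Lb := by
    by_contra hcon
    push Not at hcon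
    have hpal : IsPal (Θ (k + 1)) (pref u (Lb - (Lc - Lb))) := by
      rw [isPal_pref_iff]
      intro x hx
      have h1 := hRb x (by omega)
      have h2 := hRc (Lb - 1 - x) (by omega)
      have e1 : Lc - 1 - (Lb - 1 - x) = x + (Lc - Lb) := by omega
      rw [e1, h1, hl2] at h2
      have h3 := hRb (x + (Lc - Lb)) (by omega)
      rw [h2, hinvb] at h3
      have e2 : Lb - 1 - (x + (Lc - Lb)) = Lb - (Lc - Lb) - 1 - x := by omega
      rw [e2] at h3
      exact h3
    have := hno _ _ hpal (by omega)
    omega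
  -- upper bound
  have hup : Lc ≤ Lb + (Lb - La) := by
    set q := Lb - La with hq
    let v : ℕ → A := fun y => if y < Lb then u y else sc (u (Lb + q - 1 - y))
    have hv1 : ∀ y, y < Lb → v y = u y := by
      intro y hy
      simp only [v, hy, if_true]
    have hv2 : ∀ y, Lb ≤ y → v y = sc (u (Lb + q - 1 - y)) := by
      intro y hy
      simp only [v, Nat.not_lt.mpr hy, if_false]
    have hpal : IsPal (Θ (k + 3)) (pref v (Lb + q)) := by
      rw [isPal_pref_iff]
      intro x hx
      rcases Nat.lt_or_ge x Lb with h1 | h1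
      · rcases Nat.lt_or_ge (Lb + q - 1 - x) Lb with h2 | h2
        · rw [hv1 _ h2, hv1 _ h1]
          obtain ⟨z, rfl⟩ : ∃ z, x = q + z := ⟨x - q, by omega⟩
          have h3 := hRa z (by omega)
          have h4 := hRb (La - 1 - z) (by omega)
          have e1 : Lb - 1 - (La - 1 - z) = q + z := by omega
          rw [e1, h3] at h4
          have h5 := hRb z (by omega)
          have e2 : Lb + q - 1 - (q + z) = Lb - 1 - z := by omega
          rw [e2, h5, h4, ← hsc, hl2, hinva]
        · rw [hv2 _ h2, hv1 _ h1]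
          have e1 : Lb + q - 1 - (Lb + q - 1 - x) = x := by omega
          rw [e1]
      · rw [hv1 _ (by omega), hv2 _ h1, ← hsc, hinvc]
    have hpre : pref u Lb ++ [Δ (k + 3)] <+: pref v (Lb + q) := by
      have h1 : pref u Lb = pref v Lb := by
        unfold pref
        refine List.map_congr_left ?_
        intro y hy
        rw [List.mem_range] at hy
        exact (hv1 y hy).symm
      have h2 : v Lb = Δ (k + 3) := by
        rw [hv2 _ le_rfl]
        have h3 := hRb La (by omega)
        have e1 : Lb + q - 1 - Lb = Lb - 1 - La := by omega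
        rw [e1, h3, hl2, hua, hl1, hinvb]
      rw [h1, ← h2, ← pref_succ, ← pref_take v (show Lb + 1 ≤ Lb + q by omega)]
      exact List.take_prefix _ _
    have := hclos3 _ hpal hpre
    rw [pref_length] at this
    exact this
  omega

theorem periodic_of_conds [Finite A] (hg : Generates Δ Θ u) (hn : Normalized Δ Θ u) {m : ℕ}
    (hc1 : Cond1 Δ Θ m) (hc2 : Cond2 Θ m) : Periodic u := by
  have hdiff : ∀ k, m ≤ k → len Δ Θ (k + 2) = len Δ Θ (k + 1) +
      (len Δ Θ (m + 2) - len Δ Θ (m + 1)) := by
    intro k hk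
    induction k, hk using Nat.le_induction with
    | base =>
      have := len_succ Δ Θ (m + 1)
      have e : m + 1 + 1 = m + 2 := rfl
      rw [e] at this
      omega
    | succ k hk ih =>
      have h1 := len_diff hg hn hc1 hc2 k hk
      have e1 : k + 1 + 2 = k + 3 := by omega
      have e2 : k + 1 + 1 = k + 2 := by omega
      rw [e1, e2]
      omega
  set q := len Δ Θ (m + 2) - len Δ Θ (m + 1) with hq
  have hq0 : 0 < q := by
    have := len_succ Δ Θ (m + 1)
    have e : m + 1 + 1 = m + 2 := rfl
    rw [e] at this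
    omega
  have hcomp : ∀ k, m ≤ k → ∀ a, (Θ (k + 2)).letter ((Θ (k + 1)).letter a)
      = (Θ (m + 2)).letter ((Θ (m + 1)).letter a) := by
    intro k hk
    induction k, hk using Nat.le_induction with
    | base => intro a; rfl
    | succ k hk ih =>
      intro a
      have h1 := cond2_letter hc2 k hk a
      have e1 : k + 1 + 2 = k + 3 := by omega
      have e2 : k + 1 + 1 = k + 2 := by omega
      rw [e1, e2, h1, ih]
  let π : A → A := fun a => (Θ (m + 2)).letter ((Θ (m + 1)).letter a)
  have htr : ∀ x, u (x + q) = π (u x) := by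
    intro x
    have hk : m ≤ m + x := Nat.le_add_right _ _
    have hRa := refA_len hg (m + x)
    have hRb := refA_len hg (m + x + 1)
    have hlt := le_len Δ Θ (m + x + 1)
    have hd := hdiff (m + x) hk
    have h1 := hRa x (by omega)
    have h2 := hRb (len Δ Θ (m + x + 1) - 1 - x) (by
      have e : m + x + 1 + 1 = m + x + 2 := rfl
      rw [e, hd]; omega)
    have e1 : len Δ Θ (m + x + 1 + 1) - 1 - (len Δ Θ (m + x + 1) - 1 - x) = x + q := by
      have e : m + x + 1 + 1 = m + x + 2 := rfl
      rw [e, hd]; omega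
    rw [e1, h1] at h2
    rw [h2]
    exact hcomp (m + x) hk (u x)
  let πe : Equiv.Perm A :=
    { toFun := fun a => (Θ (m + 2)).letter ((Θ (m + 1)).letter a)
      invFun := fun a => (Θ (m + 1)).letter ((Θ (m + 2)).letter a)
      left_inv := by
        intro a
        simp only [InvAnti.letter_letter]
      right_inv := by
        intro a
        simp only [InvAnti.letter_letter] }
  have hiter : ∀ j x, u (x + j * q) = (πe ^ j) (u x) := by
    intro j
    induction j with
    | zero => intro x; simp
    | succ j ih =>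
      intro x
      have e : x + (j + 1) * q = x + j * q + q := by ring
      rw [e, htr, ih x, pow_succ']
      rfl
  have hfin : IsOfFinOrder πe := isOfFinOrder_of_finite πe
  refine ⟨0, orderOf πe * q, Nat.mul_pos hfin.orderOf_pos hq0, ?_⟩
  intro i _
  rw [hiter, pow_orderOf_eq_one]
  rfl

end main

/-- **Periodicity of generalized pseudostandard words over an arbitrary finite alphabet.** Let `u`
be a word in which every letter of the finite alphabet `A` occurs, and let `(Δ, Θ)` be a normalized
directive bi-sequence generating `u`. Then `u` is periodic if and only if the conditions 1 and 2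
hold for some pair of tails of `Δ` and `Θ` starting at the same place. -/
theorem result {A : Type} [Finite A] (Δ : ℕ → A) (Θ : ℕ → InvAnti A) (u : ℕ → A)
    (hgen : Generates Δ Θ u) (hdary : ∀ a : A, ∃ i, u i = a) (hnorm : Normalized Δ Θ u) :
    Periodic u ↔ ∃ m : ℕ, Cond1 Δ Θ m ∧ Cond2 Θ m :=
  ⟨fun h => conds_of_periodic hgen hdary hnorm h,
    fun ⟨_, h1, h2⟩ => periodic_of_conds hgen hnorm h1 h2⟩

end Pool.Agent.Results.MP_757726_co.PeriodicityCriterion
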